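import Mathlib

/-!
# Infinitely many `c` with `S ⊆ K_c`

For every `j ≥ 3` and `c = 2 ^ j - 2` all numbers `2 q`, `q > 3` a Fermat prime, lie in `K_c`.

The proof: for even `n = 2 N` everything is reduced to the parity of `C(N - 1, y)` with
`y = q - c N - 1`; if it is odd, there are no carries in the addition `y + z = N - 1`, and
`A (y + z + 1) = 2 ^ M + 2 ^ r + 1 + y + 2 z` with `A = 2 ^ j`, `r = 0`, which is impossible by
descent on `M` (halving `y` and `z` gives an equation of the same shape with `M - 1` and some other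
`r ≤ j`).
-/

set_option autoImplicit false

namespace Pool.Agent.Results.MP_82795f_nt.InfinitelyManyC

/-- `K c` is the set of the positive integers `k` such that `n` divides `C(n, k - c n)` for every
integer `n` with `k / (c + 1) ≤ n ≤ k / c`. -/
def K (c : ℕ) : Set ℕ :=
  {k | 0 < k ∧ ∀ n : ℕ, k ≤ (c + 1) * n → c * n ≤ k → n ∣ Nat.choose n (k - c * n)}

/-- `S` is the set of the numbers `2 q` with a Fermat prime `q = 2 ^ (2 ^ m) + 1 > 3`. -/
def S : Set ℕ :=
  {k | ∃ m : ℕ, Nat.Prime (2 ^ (2 ^ m) + 1) ∧ 3 < 2 ^ (2 ^ m) + 1 ∧ k = 2 * (2 ^ (2 ^ m) + 1)}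

/-- One step of the theorem of Lucas modulo `2`. -/
theorem odd_choose {y z : ℕ} (h : Odd (Nat.choose (y + z) y)) :
    ¬ (y % 2 = 1 ∧ z % 2 = 1) ∧ Odd (Nat.choose (y / 2 + z / 2) (y / 2)) := by
  have : Fact (Nat.Prime 2) := ⟨Nat.prime_two⟩
  have h1 := Choose.choose_modEq_choose_mod_mul_choose_div_nat (n := y + z) (k := y) (p := 2)
  have h2 : (Nat.choose (y + z) y) % 2 = 1 := Nat.odd_iff.1 h
  rw [Nat.ModEq, h2] at h1
  have h3 : Odd (Nat.choose ((y + z) % 2) (y % 2) * Nat.choose ((y + z) / 2) (y / 2)) :=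
    Nat.odd_iff.2 h1.symm
  rw [Nat.odd_mul] at h3
  have h4 : ¬ (y % 2 = 1 ∧ z % 2 = 1) := by
    rintro ⟨hy, hz⟩
    have h5 : (y + z) % 2 = 0 := by omega
    rw [h5, hy] at h3
    simp at h3
  refine ⟨h4, ?_⟩
  have h6 : (y + z) / 2 = y / 2 + z / 2 := by omega
  rw [h6] at h3
  exact h3.2

/-- The descent. -/
theorem descent {j : ℕ} (hj : 3 ≤ j) : ∀ (M r y z : ℕ), r ≤ j → Odd (Nat.choose (y + z) y) →
    2 ^ j * (y + z + 1) ≠ 2 ^ M + 2 ^ r + 1 + y + 2 * z := by
  have hA8 : 8 ≤ 2 ^ j := by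
    calc (8 : ℕ) = 2 ^ 3 := by norm_num
      _ ≤ 2 ^ j := Nat.pow_le_pow_right (by norm_num) hj
  obtain ⟨i, rfl⟩ : ∃ i, j = i + 1 := ⟨j - 1, by omega⟩
  intro M
  induction M with
  | zero =>
    intro r y z hr _ h
    rcases Nat.eq_zero_or_pos (y + z) with h0 | h0
    · have hy : y = 0 := by omega
      have hz : z = 0 := by omega
      subst hy hz
      rcases Nat.lt_or_ge r (i + 1) with h1 | h1
      · have h2 : 2 ^ r ≤ 2 ^ i := Nat.pow_le_pow_right (by norm_num) (by omega)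
        have h3 : 2 ^ (i + 1) = 2 * 2 ^ i := by ring
        rw [h3] at h hA8
        omega
      · have h2 : r = i + 1 := by omega
        subst h2
        omega
    · have h1 : 2 ^ r ≤ 2 ^ (i + 1) := Nat.pow_le_pow_right (by norm_num) hr
      have h2 : 2 ^ (i + 1) * (y + z + 1) = 2 ^ (i + 1) * (y + z) + 2 ^ (i + 1) := by ring
      have h3 : 8 * (y + z) ≤ 2 ^ (i + 1) * (y + z) := Nat.mul_le_mul_right _ hA8
      rw [h2] at h
      omega
  | succ M ih =>
    intro r y z hr hodd h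
    obtain ⟨h1, h2⟩ := odd_choose hodd
    have hA : 2 ^ (i + 1) = 2 * 2 ^ i := by ring
    have hM : 2 ^ (M + 1) = 2 * 2 ^ M := by ring
    rcases r with _ | r
    · -- `r = 0`
      have hpar : y % 2 = 0 := by
        rw [hA, hM, mul_assoc] at h
        omega
      obtain ⟨y1, hy1⟩ : ∃ y1, y = 2 * y1 := ⟨y / 2, by omega⟩
      rcases Nat.mod_two_eq_zero_or_one z with hz | hz
      · obtain ⟨z1, hz1⟩ : ∃ z1, z = 2 * z1 := ⟨z / 2, by omega⟩
        have h3 : y / 2 = y1 := by omega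
        have h4 : z / 2 = z1 := by omega
        rw [h3, h4] at h2
        refine ih i y1 z1 (by omega) h2 ?_
        rw [hy1, hz1, hA, hM] at h
        rw [hA]
        have h5 : 2 * 2 ^ i * (2 * y1 + 2 * z1 + 1) = 2 * (2 ^ i * (2 * (y1 + z1) + 1)) := by ring
        rw [h5] at h
        have h6 : 2 * 2 ^ i * (y1 + z1 + 1) = 2 ^ i * (2 * (y1 + z1) + 1) + 2 ^ i := by ring
        rw [h6]
        omega
      · obtain ⟨z1, hz1⟩ : ∃ z1, z = 2 * z1 + 1 := ⟨z / 2, by omega⟩
        have h3 : y / 2 = y1 := by omega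
        have h4 : z / 2 = z1 := by omega
        rw [h3, h4] at h2
        refine ih 0 y1 z1 (by omega) h2 ?_
        rw [hy1, hz1, hM] at h
        have h5 : 2 ^ (i + 1) * (2 * y1 + (2 * z1 + 1) + 1) =
            2 * (2 ^ (i + 1) * (y1 + z1 + 1)) := by ring
        rw [h5] at h
        omega
    · have hR : 2 ^ (r + 1) = 2 * 2 ^ r := by ring
      have hpar : y % 2 = 1 := by
        rw [hA, hM, hR, mul_assoc] at h
        omega
      have hzpar : z % 2 = 0 := by omega
      obtain ⟨y1, hy1⟩ : ∃ y1, y = 2 * y1 + 1 := ⟨y / 2, by omega⟩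
      obtain ⟨z1, hz1⟩ : ∃ z1, z = 2 * z1 := ⟨z / 2, by omega⟩
      have h3 : y / 2 = y1 := by omega
      have h4 : z / 2 = z1 := by omega
      rw [h3, h4] at h2
      refine ih r y1 z1 (by omega) h2 ?_
      rw [hy1, hz1, hM, hR] at h
      have h5 : 2 ^ (i + 1) * (2 * y1 + 1 + 2 * z1 + 1) =
          2 * (2 ^ (i + 1) * (y1 + z1 + 1)) := by ring
      rw [h5] at h
      omega

theorem subset {j : ℕ} (hj : 3 ≤ j) : S ⊆ K (2 ^ j - 2) := by
  have hA8 : 8 ≤ 2 ^ j := by
    calc (8 : ℕ) = 2 ^ 3 := by norm_num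
      _ ≤ 2 ^ j := Nat.pow_le_pow_right (by norm_num) hj
  have hAe : 2 ∣ 2 ^ j := dvd_pow_self 2 (by omega)
  rintro k ⟨m, hq, hq3, rfl⟩
  refine ⟨by positivity, fun n hn1 hn2 => ?_⟩
  set M := 2 ^ m with hM
  have hMpos : 0 < M := by positivity
  set q := 2 ^ M + 1 with hqdef
  have hqodd : q % 2 = 1 := by
    have : 2 ∣ 2 ^ M := dvd_pow_self 2 (by omega)
    omega
  obtain ⟨c, hc⟩ : ∃ c, c = 2 ^ j - 2 := ⟨_, rfl⟩
  rw [← hc] at hn1 hn2 ⊢
  have hc6 : 6 ≤ c := by omega
  have hce : c % 2 = 0 := by omega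
  have hn0 : 0 < n := by
    rcases Nat.eq_zero_or_pos n with h | h
    · rw [h] at hn1; omega
    · exact h
  have hnq : n < q := by
    have : 6 * n ≤ c * n := Nat.mul_le_mul_right _ hc6
    omega
  have hcop : Nat.Coprime n q :=
    ((Nat.Prime.coprime_iff_not_dvd hq).2 (Nat.not_dvd_of_pos_of_lt hn0 hnq)).symm
  obtain ⟨i, hi⟩ : ∃ i, 2 * q = c * n + i := ⟨2 * q - c * n, by omega⟩
  have hi' : 2 * q - c * n = i := by omega
  rw [hi']
  have hin : i ≤ n := by
    have : (c + 1) * n = c * n + n := by ring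
    omega
  have hgcd : Nat.gcd n i = Nat.gcd n (2 * q) := by
    rw [hi, add_comm, mul_comm c n, Nat.gcd_add_mul_left_right]
  rcases Nat.eq_zero_or_pos i with hi0 | hi0
  · -- `i = 0`
    have h1 : n ∣ 2 * q := by rw [hi, hi0]; exact ⟨c, by ring⟩
    have h2 : n ∣ 2 := hcop.dvd_of_dvd_mul_right h1
    have h3 : n ≤ 2 := Nat.le_of_dvd (by norm_num) h2
    rcases (show n = 1 ∨ n = 2 by omega) with h4 | h4
    · rw [h4]; exact one_dvd _
    · exfalso
      rw [h4, hi0] at hi
      -- `q = c` is even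
      omega
  obtain ⟨n', rfl⟩ : ∃ n', n = n' + 1 := ⟨n - 1, by omega⟩
  obtain ⟨i', rfl⟩ : ∃ i', i = i' + 1 := ⟨i - 1, by omega⟩
  have hid : (n' + 1) * Nat.choose n' i' = Nat.choose (n' + 1) (i' + 1) * (i' + 1) :=
    Nat.add_one_mul_choose_eq n' i'
  rcases Nat.mod_two_eq_zero_or_one (n' + 1) with hpar | hpar
  · -- `n` even
    obtain ⟨N, hN⟩ : ∃ N, n' + 1 = 2 * N := ⟨(n' + 1) / 2, by omega⟩
    have hipar : (i' + 1) % 2 = 0 := by
      have : 2 * q = c * (2 * N) + (i' + 1) := by rw [← hN]; exact hi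
      have h2 : c * (2 * N) = 2 * (c * N) := by ring
      omega
    obtain ⟨y', hy'⟩ : ∃ y', i' + 1 = 2 * y' := ⟨(i' + 1) / 2, by omega⟩
    have hqy : q = c * N + y' := by
      have h1 : 2 * q = c * (2 * N) + 2 * y' := by rw [← hN, ← hy']; exact hi
      have h2 : c * (2 * N) = 2 * (c * N) := by ring
      omega
    have hcN : (c * N) % 2 = 0 := by
      rw [Nat.mul_mod, hce]; simp
    have hyodd : y' % 2 = 1 := by omega
    obtain ⟨y, hy⟩ : ∃ y, y' = y + 1 := ⟨y' - 1, by omega⟩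
    obtain ⟨z, hz⟩ : ∃ z, N = y + z + 1 := ⟨N - y' , by omega⟩
    have hNpos : 0 < N := by omega
    -- parity of `C(n', i')`
    have heven : Even (Nat.choose n' i') := by
      by_contra hne
      rw [Nat.not_even_iff_odd] at hne
      have h3 : n' = i' + (2 * z) := by omega
      rw [h3] at hne
      have h4 := (odd_choose hne).2
      have h5 : i' / 2 = y := by omega
      have h6 : 2 * z / 2 = z := by omega
      rw [h5, h6] at h4
      refine descent hj M 0 y z (by omega) h4 ?_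
      have h7 : 2 ^ j = c + 2 := by omega
      rw [h7]
      have h8 : q = c * (y + z + 1) + (y + 1) := by rw [← hz, ← hy]; exact hqy
      have h9 : (c + 2) * (y + z + 1) = c * (y + z + 1) + 2 * (y + z + 1) := by ring
      rw [h9]
      omega
    obtain ⟨e, he⟩ := heven
    have h10 : Nat.choose (n' + 1) (i' + 1) * y' = 2 * N * e := by
      have h11 : 2 * (Nat.choose (n' + 1) (i' + 1) * y') = 2 * (2 * N * e) := by
        calc 2 * (Nat.choose (n' + 1) (i' + 1) * y')
            = Nat.choose (n' + 1) (i' + 1) * (2 * y') := by ring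
          _ = Nat.choose (n' + 1) (i' + 1) * (i' + 1) := by rw [hy']
          _ = (n' + 1) * Nat.choose n' i' := hid.symm
          _ = 2 * N * (e + e) := by rw [he, hN]
          _ = 2 * (2 * N * e) := by ring
      omega
    have h12 : Nat.Coprime (n' + 1) y' := by
      rw [hN]
      have h13 : Nat.Coprime 2 y' := (Nat.coprime_two_left).2 (Nat.odd_iff.2 hyodd)
      have h14 : Nat.Coprime N y' := by
        have h15 : Nat.Coprime N q := Nat.Coprime.coprime_dvd_left ⟨2, by rw [hN]; ring⟩ hcop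
        rw [hqy] at h15
        rw [Nat.coprime_iff_gcd_eq_one] at h15 ⊢
        rwa [add_comm, mul_comm c N, Nat.gcd_add_mul_left_right] at h15
      exact Nat.Coprime.mul_left h13 h14
    refine h12.dvd_of_dvd_mul_right ?_
    rw [h10, ← hN]
    exact Dvd.intro _ rfl
  · -- `n` odd
    have h1 : Nat.Coprime (n' + 1) (2 * q) :=
      Nat.Coprime.mul_right ((Nat.coprime_two_right).2 (Nat.odd_iff.2 hpar)) hcop
    have h2 : Nat.Coprime (n' + 1) (i' + 1) := by
      rw [Nat.coprime_iff_gcd_eq_one, hgcd]; exact h1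
    refine h2.dvd_of_dvd_mul_right ?_
    rw [← hid]
    exact Dvd.intro _ rfl

/-- For all `j ≥ 3` the set `S` is contained in `K (2 ^ j - 2)`; hence there are infinitely many
`c ≥ 2` such that `S ⊆ K c`. -/
theorem result :
    (∀ j : ℕ, 3 ≤ j → S ⊆ K (2 ^ j - 2)) ∧ {c : ℕ | 2 ≤ c ∧ S ⊆ K c}.Infinite := by
  refine ⟨fun j hj => subset hj, ?_⟩
  refine Set.infinite_of_injective_forall_mem (f := fun j : ℕ => 2 ^ (j + 3) - 2) ?_ ?_
  · intro a b hab
    have ha : 8 ≤ 2 ^ (a + 3) := by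
      calc (8 : ℕ) = 2 ^ 3 := by norm_num
        _ ≤ _ := Nat.pow_le_pow_right (by norm_num) (by omega)
    have hb : 8 ≤ 2 ^ (b + 3) := by
      calc (8 : ℕ) = 2 ^ 3 := by norm_num
        _ ≤ _ := Nat.pow_le_pow_right (by norm_num) (by omega)
    have h1 : 2 ^ (a + 3) = 2 ^ (b + 3) := by
      simp only at hab
      omega
    have := Nat.pow_right_injective (le_refl 2) h1
    omega
  · intro j
    have ha : 8 ≤ 2 ^ (j + 3) := by
      calc (8 : ℕ) = 2 ^ 3 := by norm_num
        _ ≤ _ := Nat.pow_le_pow_right (by norm_num) (by omega)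
    exact ⟨by omega, subset (by omega)⟩

end Pool.Agent.Results.MP_82795f_nt.InfinitelyManyC
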