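import Mathlib

/-!
# A multiple of three `c` and a Fermat prime `q > 3` with `2 q ∉ K_c`

`514 = 2 · 257` is not in `K_42`: for `n = 12` one has `514 / 43 ≤ 12 ≤ 514 / 42` and
`C(12, 514 - 42 · 12) = C(12, 10) = 66` is not divisible by `12`.
-/

set_option autoImplicit false

namespace Pool.Agent.Results.MP_82795f_nt.MultiplesOfThree

/-- `K c` is the set of the positive integers `k` such that `n` divides `C(n, k - c n)` for every
integer `n` with `k / (c + 1) ≤ n ≤ k / c`. -/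
def K (c : ℕ) : Set ℕ :=
  {k | 0 < k ∧ ∀ n : ℕ, k ≤ (c + 1) * n → c * n ≤ k → n ∣ Nat.choose n (k - c * n)}

/-- `S` is the set of the numbers `2 q` with a Fermat prime `q = 2 ^ (2 ^ m) + 1 > 3`. -/
def S : Set ℕ :=
  {k | ∃ m : ℕ, Nat.Prime (2 ^ (2 ^ m) + 1) ∧ 3 < 2 ^ (2 ^ m) + 1 ∧ k = 2 * (2 ^ (2 ^ m) + 1)}

/-- There is a positive integer `c ≥ 2` divisible by `3` such that `S` is not contained in `K c`. -/
theorem result : ∃ c : ℕ, 2 ≤ c ∧ 3 ∣ c ∧ ¬ S ⊆ K c := by
  refine ⟨42, by norm_num, by norm_num, fun h => ?_⟩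
  have h1 : (514 : ℕ) ∈ S := ⟨3, by norm_num, by norm_num, by norm_num⟩
  have h2 := (h h1).2 12 (by norm_num) (by norm_num)
  have h3 : Nat.choose 12 (514 - 42 * 12) = 66 := by decide
  rw [h3] at h2
  omega

end Pool.Agent.Results.MP_82795f_nt.MultiplesOfThree
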